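import Pool.Agent.Helper909_ly.Hom
import Pool.Agent.Helper909_ice.Unif

/-!
# Square ice: a sharp multivariate Lee-Yang theorem for the height function

Uniform height functions of square ice on a finite set `D` of `ℤ²` with arbitrary values prescribed
on a set `B` to which every vertex of `D` is joined (for example zero on the boundary of an even
domain).  The joint moment generating function `E exp (∑ z u * h u)` has no zero `z` in the tube in
which the positive parts of the imaginary parts of the `z u` (over the vertices `u` that are not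
pinned) sum to less than `π / 2`, and so do the negative parts; the real parts are arbitrary.
The bound is sharp: for a single free vertex next to a pinned vertex the generating function is
`cosh z`, up to a factor without zeros.
-/

namespace Pool.Agent.Results.MP_973bc8_pr.LeeYang

open MeasureTheory ProbabilityTheory

/-- nearest neighbours in `ℤ²` -/
def Adj (u v : ℤ × ℤ) : Prop := |u.1 - v.1| + |u.2 - v.2| = 1

/-- the height functions on `D` with the values `ξ` on `B` -/
def heights (D : Finset (ℤ × ℤ)) (B : Set (ℤ × ℤ)) (ξ : ℤ × ℤ → ℤ) : Set (D → ℤ) :=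
  {h | (∀ u v : D, Adj u v → |h u - h v| = 1) ∧
    (∀ u : D, Even ((u : ℤ × ℤ).1 + (u : ℤ × ℤ).2) → Even (h u)) ∧
    ∀ u : D, (u : ℤ × ℤ) ∈ B → h u = ξ u}

/-- the uniform probability measure on these height functions -/
noncomputable def law (D : Finset (ℤ × ℤ)) (B : Set (ℤ × ℤ)) (ξ : ℤ × ℤ → ℤ) : Measure (D → ℤ) :=
  uniformOn (heights D B ξ)

/-- every vertex of `D` is joined to a vertex of `B` by a nearest neighbour path in `D` -/
def Pinned (D : Finset (ℤ × ℤ)) (B : Set (ℤ × ℤ)) : Prop :=
  ∀ u : D, ∃ v : D, (v : ℤ × ℤ) ∈ B ∧ Relation.ReflTransGen (fun x y : D => Adj x y) u v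

open Pool.Agent.Helper909_ly in
open scoped Classical in
/-- **Lee-Yang theorem for square ice.** The joint moment generating function of the heights does
not vanish when the positive parts and the negative parts of the imaginary parts, over the free
vertices, both sum to less than `π / 2`. -/
theorem result (D : Finset (ℤ × ℤ)) (B : Set (ℤ × ℤ)) (ξ : ℤ × ℤ → ℤ) (hB : Pinned D B)
    (hne : (heights D B ξ).Nonempty) (z : D → ℂ)
    (hpos : ∑ u : D, (if (u : ℤ × ℤ) ∈ B then 0 else max (z u).im 0) < Real.pi / 2)
    (hneg : ∑ u : D, (if (u : ℤ × ℤ) ∈ B then 0 else max (-(z u).im) 0) < Real.pi / 2) :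
    ∫ h, Complex.exp (∑ u : D, z u * (h u : ℂ)) ∂(law D B ξ) ≠ 0 := by
  obtain ⟨h0, h01, h02, h03⟩ := hne
  set A : D → D → Prop := fun u v => Adj u v with hA
  set B' : Set D := {u | (u : ℤ × ℤ) ∈ B} with hB'
  have hJ : Joined A B' := by
    intro u
    obtain ⟨v, hv, hr⟩ := hB u
    exact ⟨v, hv, hr⟩
  have hh0 : h0 ∈ Homs A B' h0 := ⟨h01, fun _ _ => rfl⟩
  have hset : heights D B ξ = ((homs_finite hJ h0).toFinset : Set (D → ℤ)) := by
    ext h
    rw [Set.Finite.coe_toFinset]
    constructor
    · rintro ⟨h1, _, h3⟩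
      exact ⟨h1, fun u hu => by rw [h3 u hu, h03 u hu]⟩
    · rintro ⟨h1, h3⟩
      refine ⟨h1, fun u hu => ?_, fun u hu => by rw [h3 u hu, h03 u hu]⟩
      have h4 := homs_parity hJ hh0 (h := h) ⟨h1, h3⟩ u
      have h5 := h02 u hu
      have : h u = (h u - h0 u) + h0 u := by ring
      rw [this]
      exact h4.add h5
  have hnon : ((homs_finite hJ h0).toFinset).Nonempty := by
    refine ⟨h0, ?_⟩
    rw [Set.Finite.mem_toFinset]
    exact hh0
  rw [law, hset, Pool.Agent.Helper909_ice.integral_unif _ hnon]
  rw [smul_ne_zero_iff]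
  refine ⟨?_, homs_LeeYang hJ hh0 z hpos hneg⟩
  rw [Ne, inv_eq_zero]
  exact_mod_cast hnon.card_pos.ne'

end Pool.Agent.Results.MP_973bc8_pr.LeeYang
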