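import Pool.Agent.Helper909_ice.NetGauss
import Pool.Agent.Helper909_ice.Unif

/-!
# Square ice: linear statistics with small absolute mass are asymptotically Gaussian

Uniform height functions of square ice on finite sets `D n` of `ℤ²` with arbitrary values prescribed
on a set `B n` to which every vertex of `D n` is joined (for example zero on the boundary of an even
domain).  If the coefficients of `m` linear statistics have absolute sums tending to zero and the
covariances of the statistics converge, then the vector of the centred statistics converges in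
distribution to the centred Gaussian vector with the limiting covariances.
-/

namespace Pool.Agent.Results.MP_973bc8_pr.LinearStatisticsCLT

open MeasureTheory ProbabilityTheory Filter
open scoped Topology

/-- nearest neighbours in `ℤ²` -/
def Adj (u v : ℤ × ℤ) : Prop := |u.1 - v.1| + |u.2 - v.2| = 1

/-- the height functions on `D` with the values `ξ` on `B` -/
def heights (D : Finset (ℤ × ℤ)) (B : Set (ℤ × ℤ)) (ξ : ℤ × ℤ → ℤ) : Set (D → ℤ) :=
  {h | (∀ u v : D, Adj u v → |h u - h v| = 1) ∧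
    (∀ u : D, Even ((u : ℤ × ℤ).1 + (u : ℤ × ℤ).2) → Even (h u)) ∧
    ∀ u : D, (u : ℤ × ℤ) ∈ B → h u = ξ u}

/-- the uniform probability measure on these height functions -/
noncomputable def law (D : Finset (ℤ × ℤ)) (B : Set (ℤ × ℤ)) (ξ : ℤ × ℤ → ℤ) : Measure (D → ℤ) :=
  uniformOn (heights D B ξ)

/-- every vertex of `D` is joined to a vertex of `B` by a nearest neighbour path in `D` -/
def Pinned (D : Finset (ℤ × ℤ)) (B : Set (ℤ × ℤ)) : Prop :=
  ∀ u : D, ∃ v : D, (v : ℤ × ℤ) ∈ B ∧ Relation.ReflTransGen (fun x y : D => Adj x y) u v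

/-- the linear statistic with coefficients `f` -/
noncomputable def stat (D : Finset (ℤ × ℤ)) (f : ℤ × ℤ → ℝ) (h : D → ℤ) : ℝ :=
  ∑ u : D, f u * h u

open Pool.Agent.Helper909_ice

/-- the vertices of `D` with a neighbour outside `D` -/
def boundary (D : Finset (ℤ × ℤ)) : Set (ℤ × ℤ) := {u | u ∈ D ∧ ∃ v, Adj u v ∧ v ∉ D}

/-- the boundary of a finite set is always a possible choice of the pinned set -/
lemma pinned_boundary (D : Finset (ℤ × ℤ)) : Pinned D (boundary D) := by
  have key : ∀ k : ℕ, ∀ u : D, (D.filter (fun w => (u : ℤ × ℤ).1 < w.1)).card = k →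
      ∃ v : D, (v : ℤ × ℤ) ∈ boundary D ∧
        Relation.ReflTransGen (fun x y : D => Adj x y) u v := by
    intro k
    induction k using Nat.strong_induction_on with
    | _ k ih =>
      intro u hu
      have hadj : Adj (u : ℤ × ℤ) ((u : ℤ × ℤ).1 + 1, (u : ℤ × ℤ).2) := by
        simp [Adj]
      by_cases h : ((u : ℤ × ℤ).1 + 1, (u : ℤ × ℤ).2) ∈ D
      · have hlt : (D.filter (fun w => (u : ℤ × ℤ).1 + 1 < w.1)).card < k := by
          rw [← hu]
          refine Finset.card_lt_card ?_
          rw [Finset.ssubset_iff_of_subset]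
          · exact ⟨((u : ℤ × ℤ).1 + 1, (u : ℤ × ℤ).2), by simp [h], by simp⟩
          · intro w hw
            simp only [Finset.mem_filter] at hw ⊢
            exact ⟨hw.1, by linarith [hw.2]⟩
        obtain ⟨v, hv1, hv2⟩ := ih _ hlt ⟨_, h⟩ rfl
        exact ⟨v, hv1, Relation.ReflTransGen.head hadj hv2⟩
      · exact ⟨u, ⟨u.2, _, hadj, h⟩, Relation.ReflTransGen.refl⟩
  exact fun u => key _ u rfl

section one

variable {D : Finset (ℤ × ℤ)} {B : Set (ℤ × ℤ)}

/-- the graph `D` -/
def net (hB : Pinned D B) : Net D {e : D × D // Adj e.1 e.2} where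
  s e := e.1.1
  t e := e.1.2
  B := {u | (u : ℤ × ℤ) ∈ B}
  conn := by
    intro U hU hE x
    obtain ⟨v, hv, hr⟩ := hB x
    induction hr using Relation.ReflTransGen.head_induction_on with
    | refl => exact hU hv
    | head h _ ih => exact (hE ⟨(_, _), h⟩).2 ih

noncomputable instance : Fintype {e : D × D // Adj e.1 e.2} := Fintype.ofFinite _

noncomputable instance : DecidableEq {e : D × D // Adj e.1 e.2} := Classical.decEq _

/-- the finite set of height functions -/
noncomputable def fh (hB : Pinned D B) (ξ : ℤ × ℤ → ℤ) : Finset (D → ℤ) :=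
  (net hB).C (fun u => ξ u) Finset.univ

lemma mem_fh {hB : Pinned D B} {ξ : ℤ × ℤ → ℤ} {h : D → ℤ} : h ∈ fh hB ξ ↔
    (∀ u : D, (u : ℤ × ℤ) ∈ B → h u = ξ u) ∧ ∀ u v : D, Adj u v → |h u - h v| = 1 := by
  rw [fh, Net.mem_C]
  simp only [Finset.mem_univ, if_true]
  constructor
  · rintro ⟨h1, h2⟩
    exact ⟨h1, fun u v huv => h2 ⟨(u, v), huv⟩⟩
  · rintro ⟨h1, h2⟩
    exact ⟨h1, fun e => h2 _ _ e.2⟩

lemma heights_eq {hB : Pinned D B} {ξ : ℤ × ℤ → ℤ} (hne : (heights D B ξ).Nonempty) :
    heights D B ξ = (fh hB ξ : Set (D → ℤ)) := by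
  obtain ⟨h0, h01, h02, h03⟩ := hne
  have hm : h0 ∈ fh hB ξ := mem_fh.2 ⟨h03, h01⟩
  ext h
  simp only [Finset.mem_coe]
  constructor
  · rintro ⟨h1, _, h3⟩
    exact mem_fh.2 ⟨h3, h1⟩
  · intro hh
    have hh' := mem_fh.1 hh
    refine ⟨hh'.2, fun u hu => ?_, hh'.1⟩
    have h4 := (net hB).even_sub hh hm u
    have h5 := h02 u hu
    have : h u = (h u - h0 u) + h0 u := by ring
    rw [this]
    exact h4.add h5

lemma stat_eq_lin (f : ℤ × ℤ → ℝ) (h : D → ℤ) : stat D f h = lin (fun u : D => f u) h := rfl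

lemma one_domain (hB : Pinned D B) {ξ : ℤ × ℤ → ℤ} (hne : (heights D B ξ).Nonempty)
    (f : ℤ × ℤ → ℝ) {L : ℝ} (hL : 0 < L) (hL1 : L ≤ Real.pi / 16) (hf : ∑ u ∈ D, |f u| ≤ L) :
    ‖(∫ h, Complex.exp (((stat D f h - ∫ h', stat D f h' ∂(law D B ξ) : ℝ) : ℂ) * Complex.I)
        ∂(law D B ξ)) * Complex.exp ((covariance (stat D f) (stat D f) (law D B ξ) : ℂ) / 2) - 1‖ ≤
      Real.exp (64 * covariance (stat D f) (stat D f) (law D B ξ) * L / Real.pi) - 1 := by
  have hE := heights_eq (hB := hB) hne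
  have hne' : (fh hB ξ).Nonempty := by
    rw [hE] at hne; exact_mod_cast hne
  have hlaw : law D B ξ = uniformOn (fh hB ξ : Set (D → ℤ)) := by rw [law, hE]
  have hmean : ∫ h', stat D f h' ∂(law D B ξ) =
      (∑ h ∈ fh hB ξ, lin (fun u : D => f u) h) / (fh hB ξ).card := by
    rw [hlaw, integral_unif _ hne', smul_eq_mul, div_eq_inv_mul]; rfl
  have hcov : covariance (stat D f) (stat D f) (law D B ξ) =
      (∑ h ∈ fh hB ξ, (lin (fun u : D => f u) h - ∫ h', stat D f h' ∂(law D B ξ)) ^ 2) /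
        (fh hB ξ).card := by
    rw [covariance]
    nth_rewrite 1 [hlaw]
    rw [integral_unif _ hne', smul_eq_mul, div_eq_inv_mul]
    congr 1
    refine Finset.sum_congr rfl (fun h _ => ?_)
    rw [stat_eq_lin, sq]
  have hf' : ∑ u : D, |f u| ≤ L := by
    rw [Finset.sum_coe_sort D (fun u => |f u|)]; exact hf
  have key := (net hB).gauss (fun u => ξ u) hne' (fun u : D => f u) hL hL1 hf' hmean hcov
  have hint : ∫ h, Complex.exp (((stat D f h - ∫ h', stat D f h' ∂(law D B ξ) : ℝ) : ℂ) *
      Complex.I) ∂(law D B ξ) = (∑ h ∈ fh hB ξ, Complex.exp (((lin (fun u : D => f u) h -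
        ∫ h', stat D f h' ∂(law D B ξ) : ℝ) : ℂ) * Complex.I)) / (fh hB ξ).card := by
    generalize ∫ h', stat D f h' ∂(law D B ξ) = M
    rw [hlaw, integral_unif _ hne', Complex.real_smul, div_eq_inv_mul]
    push_cast
    rfl
  rw [hint]
  exact key

lemma law_eq (hB : Pinned D B) {ξ : ℤ × ℤ → ℤ} (hne : (heights D B ξ).Nonempty) :
    law D B ξ = uniformOn (fh hB ξ : Set (D → ℤ)) ∧ (fh hB ξ).Nonempty := by
  have hE := heights_eq (hB := hB) hne
  have hne' : (fh hB ξ).Nonempty := by
    rw [hE] at hne; exact_mod_cast hne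
  exact ⟨by rw [law, hE], hne'⟩

lemma law_prob (hB : Pinned D B) {ξ : ℤ × ℤ → ℤ} (hne : (heights D B ξ).Nonempty) :
    IsProbabilityMeasure (law D B ξ) := by
  obtain ⟨h1, h2⟩ := law_eq hB hne
  rw [h1]
  exact isProbabilityMeasure_uniformOn (Finset.finite_toSet _) (by simpa using h2)

lemma stat_comb {m : ℕ} (t : Fin m → ℝ) (f : Fin m → ℤ × ℤ → ℝ) (h : D → ℤ) :
    stat D (fun u => ∑ i, t i * f i u) h = ∑ i, t i * stat D (f i) h := by
  unfold stat
  simp only [Finset.sum_mul, Finset.mul_sum]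
  rw [Finset.sum_comm]
  refine Finset.sum_congr rfl (fun i _ => Finset.sum_congr rfl (fun u _ => ?_))
  ring

lemma mean_comb (hB : Pinned D B) {ξ : ℤ × ℤ → ℤ} (hne : (heights D B ξ).Nonempty)
    {m : ℕ} (t : Fin m → ℝ) (f : Fin m → ℤ × ℤ → ℝ) :
    ∫ h, stat D (fun u => ∑ i, t i * f i u) h ∂(law D B ξ) =
      ∑ i, t i * ∫ h, stat D (f i) h ∂(law D B ξ) := by
  obtain ⟨h1, h2⟩ := law_eq hB hne
  simp only [stat_comb]
  rw [h1, integral_finsetSum]
  · refine Finset.sum_congr rfl (fun i _ => ?_)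
    rw [integral_const_mul]
  · intro i _
    exact integrable_unif _ h2 _

lemma cov_comb (hB : Pinned D B) {ξ : ℤ × ℤ → ℤ} (hne : (heights D B ξ).Nonempty)
    {m : ℕ} (t : Fin m → ℝ) (f : Fin m → ℤ × ℤ → ℝ) :
    covariance (stat D (fun u => ∑ i, t i * f i u)) (stat D (fun u => ∑ i, t i * f i u))
      (law D B ξ) = ∑ i, ∑ j, t i * t j * covariance (stat D (f i)) (stat D (f j)) (law D B ξ) := by
  obtain ⟨h1, h2⟩ := law_eq hB hne
  rw [covariance, mean_comb hB hne]
  simp only [covariance, stat_comb]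
  have e : ∀ h : D → ℤ, (∑ i, t i * stat D (f i) h -
      ∑ i, t i * ∫ h, stat D (f i) h ∂(law D B ξ)) *
      (∑ i, t i * stat D (f i) h - ∑ i, t i * ∫ h, stat D (f i) h ∂(law D B ξ)) =
      ∑ i, ∑ j, t i * t j * ((stat D (f i) h - ∫ h, stat D (f i) h ∂(law D B ξ)) *
        (stat D (f j) h - ∫ h, stat D (f j) h ∂(law D B ξ))) := by
    intro h
    rw [← Finset.sum_sub_distrib, Finset.sum_mul_sum]
    refine Finset.sum_congr rfl (fun i _ => Finset.sum_congr rfl (fun j _ => ?_))
    ring
  simp only [e]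
  generalize (fun i => ∫ h, stat D (f i) h ∂(law D B ξ)) = M
  rw [integral_finsetSum]
  · refine Finset.sum_congr rfl (fun i _ => ?_)
    rw [integral_finsetSum]
    · refine Finset.sum_congr rfl (fun j _ => ?_)
      rw [integral_const_mul]
    · intro j _
      rw [h1]
      exact integrable_unif _ h2 _
  · intro i _
    rw [h1]
    exact integrable_unif _ h2 _

end one

theorem result (m : ℕ) (D : ℕ → Finset (ℤ × ℤ)) (B : ℕ → Set (ℤ × ℤ)) (ξ : ℕ → ℤ × ℤ → ℤ)
    (hB : ∀ n, Pinned (D n) (B n)) (hne : ∀ n, (heights (D n) (B n) (ξ n)).Nonempty)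
    (f : ℕ → Fin m → ℤ × ℤ → ℝ)
    (hf : ∀ i, Tendsto (fun n => ∑ u ∈ D n, |f n i u|) atTop (𝓝 0))
    (S : Matrix (Fin m) (Fin m) ℝ)
    (hS : ∀ i j, Tendsto (fun n => covariance (stat (D n) (f n i)) (stat (D n) (f n j))
      (law (D n) (B n) (ξ n))) atTop (𝓝 (S i j))) :
    ∀ φ : BoundedContinuousFunction (EuclideanSpace ℝ (Fin m)) ℝ,
      Tendsto (fun n => ∫ h, φ (WithLp.toLp 2 fun i => stat (D n) (f n i) h -
          ∫ h', stat (D n) (f n i) h' ∂(law (D n) (B n) (ξ n))) ∂(law (D n) (B n) (ξ n)))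
        atTop (𝓝 (∫ y, φ y ∂(multivariateGaussian 0 S))) := by
  classical
  have hP : ∀ n, IsProbabilityMeasure (law (D n) (B n) (ξ n)) := fun n => law_prob (hB n) (hne n)
  -- the limit matrix is positive semidefinite
  have hquad : ∀ t : Fin m → ℝ, Tendsto (fun n => covariance
      (stat (D n) (fun u => ∑ i, t i * f n i u)) (stat (D n) (fun u => ∑ i, t i * f n i u))
      (law (D n) (B n) (ξ n))) atTop (𝓝 (∑ i, ∑ j, t i * t j * S i j)) := by
    intro t
    have h1 : Tendsto (fun n => ∑ i, ∑ j, t i * t j * covariance (stat (D n) (f n i))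
        (stat (D n) (f n j)) (law (D n) (B n) (ξ n))) atTop (𝓝 (∑ i, ∑ j, t i * t j * S i j)) :=
      tendsto_finsetSum _ (fun i _ => tendsto_finsetSum _ (fun j _ => (hS i j).const_mul _))
    exact h1.congr (fun n => (cov_comb (hB n) (hne n) t (f n)).symm)
  have hqe : ∀ t : Fin m → ℝ, ∑ i, ∑ j, t i * t j * S i j = dotProduct t (S.mulVec t) := by
    intro t
    simp only [dotProduct, Matrix.mulVec, Finset.mul_sum]
    refine Finset.sum_congr rfl (fun i _ => Finset.sum_congr rfl (fun j _ => ?_))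
    ring
  have hpsd : S.PosSemidef := by
    refine Matrix.PosSemidef.of_dotProduct_mulVec_nonneg ?_ (fun t => ?_)
    · ext i j
      simp only [Matrix.conjTranspose_apply, star_trivial]
      refine tendsto_nhds_unique (hS j i) ((hS i j).congr (fun n => ?_))
      exact covariance_comm _ _
    · rw [star_trivial, ← hqe t]
      refine ge_of_tendsto' (hquad t) (fun n => ?_)
      rw [covariance]
      exact integral_nonneg (fun h => mul_self_nonneg _)
  -- the random vectors
  set vec : ∀ n, (D n → ℤ) → EuclideanSpace ℝ (Fin m) := fun n h =>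
    WithLp.toLp 2 fun i => stat (D n) (f n i) h -
      ∫ h', stat (D n) (f n i) h' ∂(law (D n) (B n) (ξ n)) with hvec
  have hmeas : ∀ n, Measurable (vec n) := fun n => measurable_of_countable _
  have hmap : ∀ n, IsProbabilityMeasure ((law (D n) (B n) (ξ n)).map (vec n)) := fun n =>
    Measure.isProbabilityMeasure_map (hmeas n).aemeasurable
  set ν : ℕ → ProbabilityMeasure (EuclideanSpace ℝ (Fin m)) := fun n =>
    ⟨(law (D n) (B n) (ξ n)).map (vec n), hmap n⟩ with hν
  set γ : ProbabilityMeasure (EuclideanSpace ℝ (Fin m)) :=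
    ⟨multivariateGaussian 0 S, inferInstance⟩ with hγ
  have key : Tendsto ν atTop (𝓝 γ) := by
    refine ProbabilityMeasure.tendsto_iff_tendsto_charFun.2 (fun t => ?_)
    have hcf : ∀ n, charFun (ν n : Measure (EuclideanSpace ℝ (Fin m))) t =
        ∫ h, Complex.exp (((stat (D n) (fun u => ∑ i, t i * f n i u) h -
          ∫ h', stat (D n) (fun u => ∑ i, t i * f n i u) h' ∂(law (D n) (B n) (ξ n)) : ℝ) : ℂ) *
          Complex.I) ∂(law (D n) (B n) (ξ n)) := by
      intro n
      rw [charFun_apply]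
      simp only [hν, ProbabilityMeasure.coe_mk]
      rw [integral_map (hmeas n).aemeasurable (by fun_prop)]
      congr 1
      funext h
      congr 3
      rw [mean_comb (hB n) (hne n) (fun i => t i) (f n), stat_comb (fun i => t i) (f n) h,
        ← Finset.sum_sub_distrib]
      simp only [hvec, PiLp.inner_apply]
      refine Finset.sum_congr rfl (fun i _ => ?_)
      simp
      ring
    have hlim : charFun (γ : Measure (EuclideanSpace ℝ (Fin m))) t =
        Complex.exp (-(((∑ i, ∑ j, t i * t j * S i j : ℝ) : ℂ) / 2)) := by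
      simp only [hγ, ProbabilityMeasure.coe_mk]
      rw [charFun_multivariateGaussian hpsd, hqe (fun i => t i)]
      simp
    rw [hlim]
    simp only [hcf]
    set v : ℕ → ℝ := fun n => covariance (stat (D n) (fun u => ∑ i, t i * f n i u))
      (stat (D n) (fun u => ∑ i, t i * f n i u)) (law (D n) (B n) (ξ n)) with hv
    have hvlim : Tendsto v atTop (𝓝 (∑ i, ∑ j, t i * t j * S i j)) := hquad (fun i => t i)
    set L : ℕ → ℝ := fun n => ∑ i, |t i| * ∑ u ∈ D n, |f n i u| + 1 / ((n : ℝ) + 1) with hL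
    have hLlim : Tendsto L atTop (𝓝 0) := by
      have h1 : Tendsto (fun n => ∑ i, |t i| * ∑ u ∈ D n, |f n i u|) atTop (𝓝 (∑ i, |t i| * 0)) :=
        tendsto_finsetSum _ (fun i _ => (hf i).const_mul _)
      have h2 := h1.add (tendsto_one_div_add_atTop_nhds_zero_nat (𝕜 := ℝ))
      simp only [mul_zero, Finset.sum_const_zero, add_zero] at h2
      exact h2
    have hLpos : ∀ n, 0 < L n := by
      intro n
      have h1 : 0 ≤ ∑ i, |t i| * ∑ u ∈ D n, |f n i u| :=
        Finset.sum_nonneg (fun i _ => mul_nonneg (abs_nonneg _)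
          (Finset.sum_nonneg (fun u _ => abs_nonneg _)))
      have h2 : (0 : ℝ) < 1 / ((n : ℝ) + 1) := by positivity
      simp only [hL]; linarith
    have hLf : ∀ n, ∑ u ∈ D n, |∑ i, t i * f n i u| ≤ L n := by
      intro n
      have h2 : (0 : ℝ) < 1 / ((n : ℝ) + 1) := by positivity
      have h3 : ∑ u ∈ D n, |∑ i, t i * f n i u| ≤ ∑ i, |t i| * ∑ u ∈ D n, |f n i u| := by
        calc ∑ u ∈ D n, |∑ i, t i * f n i u| ≤ ∑ u ∈ D n, ∑ i, |t i * f n i u| :=
              Finset.sum_le_sum (fun u _ => Finset.abs_sum_le_sum_abs _ _)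
          _ = ∑ i, |t i| * ∑ u ∈ D n, |f n i u| := by
              rw [Finset.sum_comm]
              refine Finset.sum_congr rfl (fun i _ => ?_)
              rw [Finset.mul_sum]
              exact Finset.sum_congr rfl (fun u _ => abs_mul _ _)
      simp only [hL]; linarith
    have hsmall : ∀ᶠ n in atTop, L n ≤ Real.pi / 16 := by
      have : ∀ᶠ n in atTop, L n < Real.pi / 16 :=
        hLlim.eventually (gt_mem_nhds (by positivity))
      exact this.mono (fun n hn => hn.le)
    set ψ : ℕ → ℂ := fun n => ∫ h, Complex.exp (((stat (D n) (fun u => ∑ i, t i * f n i u) h -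
          ∫ h', stat (D n) (fun u => ∑ i, t i * f n i u) h' ∂(law (D n) (B n) (ξ n)) : ℝ) : ℂ) *
          Complex.I) ∂(law (D n) (B n) (ξ n)) with hψ
    have hb : Tendsto (fun n => ψ n * Complex.exp ((v n : ℂ) / 2) - 1) atTop (𝓝 0) := by
      have h1 : Tendsto (fun n => Real.exp (64 * v n * L n / Real.pi) - 1) atTop (𝓝 0) := by
        have h2 : Tendsto (fun n => 64 * v n * L n / Real.pi) atTop
            (𝓝 (64 * (∑ i, ∑ j, t i * t j * S i j) * 0 / Real.pi)) :=
          ((hvlim.const_mul 64).mul hLlim).div_const _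
        have h3 := (Real.continuous_exp.tendsto _).comp h2
        have h4 := h3.sub_const 1
        simpa using h4
      refine squeeze_zero_norm' ?_ h1
      filter_upwards [hsmall] with n hn
      exact one_domain (hB n) (hne n) _ (hLpos n) hn (hLf n)
    have hv2 : Tendsto (fun n => Complex.exp (-((v n : ℂ) / 2))) atTop
        (𝓝 (Complex.exp (-(((∑ i, ∑ j, t i * t j * S i j : ℝ) : ℂ) / 2)))) := by
      refine (Complex.continuous_exp.tendsto _).comp ?_
      exact (((Complex.continuous_ofReal.tendsto _).comp hvlim).div_const 2).neg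
    have hfin := (hb.add_const 1).mul hv2
    rw [zero_add, one_mul] at hfin
    refine hfin.congr (fun n => ?_)
    rw [sub_add_cancel, mul_assoc, ← Complex.exp_add, add_neg_cancel, Complex.exp_zero, mul_one]
  intro φ
  have h1 := ProbabilityMeasure.tendsto_iff_forall_integral_tendsto.1 key φ
  refine h1.congr (fun n => ?_)
  simp only [hν, ProbabilityMeasure.coe_mk]
  rw [integral_map (hmeas n).aemeasurable (by fun_prop)]

end Pool.Agent.Results.MP_973bc8_pr.LinearStatisticsCLT
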